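import Pool.Agent.H240R3.WT.Stmts

set_option autoImplicit false

namespace Pool.Agent.H28R5.WT

open Filter Topology
open Pool.Agent.H240R3.WT

lemma sum_del {n : ℕ} (a : Fin (n+1) → Fin (n+1) → ℝ) (h0 : ∀ i, a i i = 0) :
    ∑ v : Fin (n+1), ∑ i : Fin n, ∑ j : Fin n, a (v.succAbove i) (v.succAbove j) =
      ((n:ℝ) - 1) * ∑ i, ∑ j, a i j := by
  have h1 : ∀ v : Fin (n+1), ∑ i : Fin n, ∑ j : Fin n, a (v.succAbove i) (v.succAbove j) =
      (∑ i, ∑ j, a i j) - (∑ j, a v j) - ∑ i, a i v := by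
    intro v
    have e1 : ∀ x : Fin (n+1), ∑ j : Fin n, a x (v.succAbove j) = (∑ j, a x j) - a x v := by
      intro x
      rw [Fin.sum_univ_succAbove (fun j => a x j) v]
      ring
    simp only [e1, Finset.sum_sub_distrib]
    rw [Fin.sum_univ_succAbove (fun i => ∑ j, a i j) v, Fin.sum_univ_succAbove (fun i => a i v) v,
      h0 v]
    ring
  simp only [h1, Finset.sum_sub_distrib]
  rw [Finset.sum_const, Finset.card_univ, Fintype.card_fin, nsmul_eq_mul,
    Finset.sum_comm (f := fun v i => a i v)]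
  push_cast
  ring

theorem taskL (hB : TaskB) : TaskL := by
  classical
  intro p hp0 hp1 𝓗 hne
  have hq : 0 ≤ 1 - p := by linarith
  have wt_nonneg : ∀ G : MG, 0 ≤ wt p G := by
    intro G
    unfold wt
    positivity
  have wt_le : ∀ G : MG, wt p G ≤ (G.n : ℝ) ^ 2 := by
    intro G
    have h1 := hB p G
    have h2 : ∑ i : Fin G.n, ∑ j : Fin G.n, ((if G.red.Adj i j then p else 0) +
        (if G.blue.Adj i j then 1 - p else 0)) ≤ ∑ i : Fin G.n, ∑ j : Fin G.n, (1:ℝ) := by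
      refine Finset.sum_le_sum fun i _ => Finset.sum_le_sum fun j _ => ?_
      split_ifs <;> linarith
    simp only [Finset.sum_const, Finset.card_univ, Fintype.card_fin, nsmul_eq_mul, mul_one] at h2
    have h3 := wt_nonneg G
    have h4 : 2 * wt p G ≤ (G.n : ℝ) * G.n := by
      rw [h1]
      convert h2
    nlinarith
  have bdd : ∀ n, BddAbove {x : ℝ | ∃ G : MG, G.n = n ∧ Free 𝓗 G ∧ x = wt p G} := by
    intro n
    refine ⟨(n:ℝ) ^ 2, ?_⟩
    rintro x ⟨G, rfl, -, rfl⟩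
    exact wt_le G
  have ex_nonneg : ∀ n, 0 ≤ ex p 𝓗 n := by
    intro n
    obtain ⟨G, h1, h2⟩ := hne n
    exact (wt_nonneg G).trans (le_csSup (bdd n) ⟨G, h1, h2, rfl⟩)
  have key : ∀ n : ℕ, ∀ G : MG, G.n = n + 1 → Free 𝓗 G →
      ((n:ℝ) - 1) * wt p G ≤ ((n:ℝ) + 1) * ex p 𝓗 n := by
    rintro n ⟨m, red, blue⟩ hm hF
    simp only at hm
    subst hm
    have hle : ∀ v : Fin (n+1),
        wt p ⟨n, red.comap v.succAbove, blue.comap v.succAbove⟩ ≤ ex p 𝓗 n := by
      intro v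
      refine le_csSup (bdd n) ⟨_, rfl, ?_, rfl⟩
      rintro H hH ⟨f, hf, h1, h2⟩
      exact hF H hH ⟨fun i => v.succAbove (f i), fun i j h => hf (Fin.succAbove_right_injective h),
        fun i j h => h1 i j h, fun i j h => h2 i j h⟩
    have hG := hB p ⟨n+1, red, blue⟩
    have hGv : ∀ v : Fin (n+1), 2 * wt p ⟨n, red.comap v.succAbove, blue.comap v.succAbove⟩ =
        ∑ i : Fin n, ∑ j : Fin n,
          ((if red.Adj (v.succAbove i) (v.succAbove j) then p else 0) +
          (if blue.Adj (v.succAbove i) (v.succAbove j) then 1 - p else 0)) := by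
      intro v
      have := hB p ⟨n, red.comap v.succAbove, blue.comap v.succAbove⟩
      rw [this]
      refine Finset.sum_congr rfl fun i _ => Finset.sum_congr rfl fun j _ => ?_
      simp only [SimpleGraph.comap_adj]
    have hsum := sum_del (fun i j : Fin (n+1) => ((if red.Adj i j then p else 0) +
          (if blue.Adj i j then 1 - p else 0))) (fun i => by simp)
    have h1 : ∑ v : Fin (n+1), 2 * wt p ⟨n, red.comap v.succAbove, blue.comap v.succAbove⟩ =
        ((n:ℝ) - 1) * (2 * wt p ⟨n+1, red, blue⟩) := by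
      rw [hG, Finset.sum_congr rfl fun v _ => hGv v]
      convert hsum
    have h2 : ∑ v : Fin (n+1), 2 * wt p ⟨n, red.comap v.succAbove, blue.comap v.succAbove⟩ ≤
        ∑ v : Fin (n+1), 2 * ex p 𝓗 n :=
      Finset.sum_le_sum fun v _ => by linarith [hle v]
    rw [h1, Finset.sum_const, Finset.card_univ, Fintype.card_fin, nsmul_eq_mul] at h2
    push_cast at h2
    linarith
  have step : ∀ n : ℕ, 2 ≤ n → ((n:ℝ) - 1) * ex p 𝓗 (n+1) ≤ ((n:ℝ) + 1) * ex p 𝓗 n := by
    intro n hn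
    have hn' : (0:ℝ) < (n:ℝ) - 1 := by
      have : (2:ℝ) ≤ n := by exact_mod_cast hn
      linarith
    have h1 : ex p 𝓗 (n+1) ≤ ((n:ℝ) + 1) * ex p 𝓗 n / ((n:ℝ) - 1) := by
      refine csSup_le ?_ ?_
      · obtain ⟨G, h1, h2⟩ := hne (n+1)
        exact ⟨_, G, h1, h2, rfl⟩
      · rintro x ⟨G, hGn, hF, rfl⟩
        rw [le_div_iff₀ hn', mul_comm]
        exact key n G hGn hF
    rw [le_div_iff₀ hn', mul_comm] at h1
    exact h1
  have hanti : Antitone (fun n : ℕ => ex p 𝓗 (n+2) / ((n+2).choose 2 : ℝ)) := by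
    refine antitone_nat_of_succ_le fun n => ?_
    have h1 := step (n+2) (by omega)
    have c1 : ((n+2).choose 2 : ℝ) = ((n:ℝ)+2) * ((n:ℝ)+1) / 2 := by
      rw [Nat.cast_choose_two]
      push_cast
      ring
    have c2 : ((n+1+2).choose 2 : ℝ) = ((n:ℝ)+3) * ((n:ℝ)+2) / 2 := by
      rw [Nat.cast_choose_two]
      push_cast
      ring
    rw [c1, c2, div_le_div_iff₀ (by positivity) (by positivity)]
    have e : n + 1 + 2 = n + 2 + 1 := by omega
    rw [e]
    push_cast at h1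
    have h3 : (0:ℝ) ≤ (n:ℝ) + 2 := by positivity
    nlinarith [mul_le_mul_of_nonneg_left h1 h3]
  have hbb : BddBelow (Set.range (fun n : ℕ => ex p 𝓗 (n+2) / ((n+2).choose 2 : ℝ))) := by
    refine ⟨0, ?_⟩
    rintro x ⟨n, rfl⟩
    exact div_nonneg (ex_nonneg _) (Nat.cast_nonneg _)
  refine ⟨_, (tendsto_add_atTop_iff_nat 2).1 (tendsto_atTop_ciInf hanti hbb)⟩

end Pool.Agent.H28R5.WT
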